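import Mathlib
import Pool.Agent.Helper28.MT.Goals

/-!
# PROJECT MT (MP_bb782b_co), packet MT-H1: exponential moment count for one set
-/

set_option autoImplicit false

namespace Pool.Agent.Helper37.MT

open Finset
open Pool.Agent.Helper28.MT

/-- the sum over all labelings of a product of weights -/
theorem sum_prod {α : Type} [Fintype α] [DecidableEq α] (N : ℕ) (U : Finset α) (w : Fin N → ℝ) :
    ∑ f : α → Fin N, ∏ x ∈ U, w (f x) =
      (N : ℝ) ^ (Fintype.card α - U.card) * (∑ a, w a) ^ U.card := by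
  have h1 : ∀ f : α → Fin N, ∏ x ∈ U, w (f x) = ∏ x, (if x ∈ U then w (f x) else 1) := by
    intro f
    rw [Finset.prod_ite_mem, Finset.univ_inter]
  rw [Finset.sum_congr rfl fun f _ => h1 f]
  have h2 : ∏ x : α, ∑ a : Fin N, (if x ∈ U then w a else 1) =
      ∑ f : α → Fin N, ∏ x, (if x ∈ U then w (f x) else 1) := by
    rw [Finset.prod_univ_sum, Fintype.piFinset_univ]
  rw [← h2]
  have h3 : ∀ x : α, (∑ a : Fin N, (if x ∈ U then w a else 1)) =
      if x ∈ U then ∑ a, w a else (N : ℝ) := by
    intro x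
    by_cases hx : x ∈ U
    · simp [hx]
    · simp [hx]
  rw [Finset.prod_congr rfl fun x _ => h3 x, Finset.prod_ite, Finset.prod_const, Finset.prod_const]
  have h4 : (univ.filter (fun x => x ∈ U)) = U := by
    ext x
    simp
  have h5 : (univ.filter (fun x => x ∉ U)).card = Fintype.card α - U.card := by
    have h6 : (univ.filter (fun x => x ∉ U)) = Uᶜ := by
      ext x
      simp
    rw [h6, Finset.card_compl]
  rw [h4, h5, mul_comm]

theorem mt_h1 : G_H1 := by
  intro α _ _ N k h l D U hh hD hN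
  have hN0 : 0 < N := by
    rcases Nat.eq_zero_or_pos N with h0 | h0
    · exfalso
      subst h0
      have h1 : D.card = 0 := by
        rw [Finset.card_eq_zero]
        ext x
        exact x.elim0
      have h2 : 0 < 2 ^ l := by positivity
      omega
    · exact h0
  have hNr : (0 : ℝ) < (N : ℝ) := by exact_mod_cast hN0
  set w : Fin N → ℝ := fun a => if a ∈ D then (1 / 2 : ℝ) else 1 with hw
  have hs := sum_prod N U w
  have hw1 : ∑ a, w a = (N : ℝ) - 2 ^ l / 2 := by
    have h1 : ∀ a, w a = 1 - (if a ∈ D then (1 / 2 : ℝ) else 0) := by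
      intro a
      simp only [hw]
      split_ifs
      · norm_num
      · norm_num
    rw [Finset.sum_congr rfl fun a _ => h1 a, Finset.sum_sub_distrib, Finset.sum_ite_mem,
      Finset.univ_inter, Finset.sum_const, Finset.sum_const, hD, Finset.card_univ, Fintype.card_fin]
    simp only [nsmul_eq_mul, mul_one]
    push_cast
    ring
  have hDN : (2 : ℝ) ^ l ≤ N := by
    have h1 : D.card ≤ N := by
      have := Finset.card_le_univ D
      rwa [Fintype.card_fin] at this
    rw [hD] at h1
    exact_mod_cast h1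
  have hUα : U.card ≤ Fintype.card α := Finset.card_le_univ U
  -- upper bound of the sum
  have hup : ∑ f : α → Fin N, ∏ x ∈ U, w (f x) ≤ (N : ℝ) ^ Fintype.card α * (1 / 2) ^ (8 * h * k) := by
    rw [hs, hw1]
    have h1 : (N : ℝ) - 2 ^ l / 2 = N * (1 - 2 ^ l / (2 * N)) := by
      field_simp
    have h2 : (1 : ℝ) - 2 ^ l / (2 * N) ≤ Real.exp (-(2 ^ l / (2 * N))) := by
      have := Real.add_one_le_exp (-((2 : ℝ) ^ l / (2 * N)))
      linarith
    have h3 : (0 : ℝ) ≤ 1 - 2 ^ l / (2 * N) := by
      have h4 : (2 : ℝ) ^ l / (2 * N) ≤ 1 := by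
        rw [div_le_one (by positivity)]
        linarith
      linarith
    have h4 : ((1 : ℝ) - 2 ^ l / (2 * N)) ^ U.card ≤ (1 / 2) ^ (8 * h * k) := by
      calc ((1 : ℝ) - 2 ^ l / (2 * N)) ^ U.card ≤ (Real.exp (-(2 ^ l / (2 * N)))) ^ U.card :=
            pow_le_pow_left₀ h3 h2 _
        _ = Real.exp (-((2 ^ l * U.card : ℝ) / (2 * N))) := by
            rw [← Real.exp_nat_mul]
            congr 1
            ring
        _ ≤ Real.exp (-((8 * h * k : ℕ) : ℝ)) := by
            apply Real.exp_le_exp.2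
            apply neg_le_neg
            rw [le_div_iff₀ (by positivity)]
            have h5 : ((16 * h * k * N : ℕ) : ℝ) ≤ ((2 ^ l * U.card : ℕ) : ℝ) := by exact_mod_cast hN
            push_cast at h5 ⊢
            linarith
        _ = (Real.exp (-1)) ^ (8 * h * k) := by
            rw [← Real.exp_nat_mul]
            congr 1
            ring
        _ ≤ (1 / 2) ^ (8 * h * k) := by
            apply pow_le_pow_left₀ (Real.exp_pos _).le
            rw [Real.exp_neg, one_div]
            apply inv_anti₀ (by norm_num)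
            have := Real.add_one_le_exp (1 : ℝ)
            linarith
    calc (N : ℝ) ^ (Fintype.card α - U.card) * ((N : ℝ) - 2 ^ l / 2) ^ U.card =
          (N : ℝ) ^ Fintype.card α * ((1 : ℝ) - 2 ^ l / (2 * N)) ^ U.card := by
          rw [h1, mul_pow, ← mul_assoc, ← pow_add, Nat.sub_add_cancel hUα]
      _ ≤ (N : ℝ) ^ Fintype.card α * (1 / 2) ^ (8 * h * k) :=
          mul_le_mul_of_nonneg_left h4 (by positivity)
  -- lower bound of the sum
  set B := univ.filter (fun f : α → Fin N => 8 * (U.filter (fun x => f x ∈ D)).card ≤ k) with hB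
  have hprod : ∀ f : α → Fin N, ∏ x ∈ U, w (f x) =
      (1 / 2 : ℝ) ^ (U.filter (fun x => f x ∈ D)).card := by
    intro f
    simp only [hw]
    rw [Finset.prod_ite, Finset.prod_const, Finset.prod_const_one, mul_one]
  have hlow : (B.card : ℝ) * (1 / 2) ^ (h * k) ≤ ∑ f : α → Fin N, ∏ x ∈ U, w (f x) := by
    calc (B.card : ℝ) * (1 / 2) ^ (h * k) = ∑ f ∈ B, (1 / 2 : ℝ) ^ (h * k) := by
          rw [Finset.sum_const, nsmul_eq_mul]
      _ ≤ ∑ f ∈ B, ∏ x ∈ U, w (f x) := by
          apply Finset.sum_le_sum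
          intro f hf
          rw [hprod f]
          apply pow_le_pow_of_le_one (by norm_num) (by norm_num)
          rw [hB, Finset.mem_filter] at hf
          have h1 : k ≤ h * k := Nat.le_mul_of_pos_left _ (by omega)
          omega
      _ ≤ ∑ f : α → Fin N, ∏ x ∈ U, w (f x) := by
          apply Finset.sum_le_sum_of_subset_of_nonneg (Finset.subset_univ _)
          intro f _ _
          rw [hprod f]
          positivity
  have h1 : (B.card : ℝ) * (1 / 2) ^ (h * k) ≤ (N : ℝ) ^ Fintype.card α * (1 / 2) ^ (8 * h * k) :=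
    hlow.trans hup
  have h2 : (B.card : ℝ) * 2 ^ (7 * h * k) ≤ (N : ℝ) ^ Fintype.card α := by
    have h3 := mul_le_mul_of_nonneg_right h1 (by positivity : (0 : ℝ) ≤ 2 ^ (8 * h * k))
    have h4 : (1 / 2 : ℝ) ^ (h * k) * 2 ^ (8 * h * k) = 2 ^ (7 * h * k) := by
      have h5 : 8 * h * k = h * k + 7 * h * k := by ring
      rw [h5, pow_add, ← mul_assoc, ← mul_pow]
      norm_num
    have h5 : (1 / 2 : ℝ) ^ (8 * h * k) * 2 ^ (8 * h * k) = 1 := by
      rw [← mul_pow]
      norm_num
    calc (B.card : ℝ) * 2 ^ (7 * h * k) = (B.card : ℝ) * (1 / 2) ^ (h * k) * 2 ^ (8 * h * k) := by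
          rw [← h4, ← mul_assoc]
      _ ≤ (N : ℝ) ^ Fintype.card α * (1 / 2) ^ (8 * h * k) * 2 ^ (8 * h * k) := h3
      _ = (N : ℝ) ^ Fintype.card α := by rw [mul_assoc, h5, mul_one]
  exact_mod_cast h2

end Pool.Agent.Helper37.MT
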